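import Mathlib

/-!
# Mean value theorem for well spaced frequencies (Mathlib only)
-/

set_option autoImplicit false

namespace Pool.Agent.H641.HD

open Complex MeasureTheory Finset
open scoped ComplexConjugate

/-- a sum of reciprocals of distinct positive integers -/
lemma sum_inv_le_harm (S : Finset ℕ) (h : ∀ m ∈ S, 1 ≤ m) :
    ∑ m ∈ S, (1 : ℝ) / m ≤ ((harmonic S.card : ℚ) : ℝ) := by
  induction S using Finset.induction_on_max with
  | empty => simp
  | insert a S ha ih =>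
    have hna : a ∉ S := fun h' => lt_irrefl _ (ha a h')
    rw [Finset.sum_insert hna, Finset.card_insert_of_notMem hna, harmonic_succ]
    have h1 := ih (fun m hm => h m (Finset.mem_insert_of_mem hm))
    have h2 : S.card + 1 ≤ a := by
      have : S ⊆ Finset.Ico 1 a := by
        intro m hm
        rw [Finset.mem_Ico]
        exact ⟨h m (Finset.mem_insert_of_mem hm), ha m hm⟩
      have h3 := Finset.card_le_card this
      rw [Nat.card_Ico] at h3
      have h4 : 1 ≤ a := h a (Finset.mem_insert_self _ _)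
      omega
    have h3 : (1 : ℝ) / a ≤ 1 / ((S.card : ℝ) + 1) := by
      apply one_div_le_one_div_of_le (by positivity)
      exact_mod_cast h2
    push_cast
    rw [one_div ((S.card : ℝ) + 1)] at h3
    linarith

lemma sum_inv_inj {ι : Type} (s t : Finset ι) (f : ι → ℕ) (hts : t ⊆ s) (h1 : ∀ i ∈ t, 1 ≤ f i)
    (hinj : ∀ i ∈ t, ∀ j ∈ t, f i = f j → i = j) :
    ∑ i ∈ t, (1 : ℝ) / f i ≤ 1 + Real.log s.card := by
  classical
  have h2 : ∑ i ∈ t, (1 : ℝ) / f i = ∑ m ∈ t.image f, (1 : ℝ) / m := by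
    rw [Finset.sum_image]
    intro i hi j hj hij
    exact hinj i hi j hj hij
  rw [h2]
  have h3 : ∀ m ∈ t.image f, 1 ≤ m := by
    intro m hm
    obtain ⟨i, hi, rfl⟩ := Finset.mem_image.1 hm
    exact h1 i hi
  refine (sum_inv_le_harm _ h3).trans ?_
  refine (harmonic_le_one_add_log _).trans ?_
  have h4 : (t.image f).card ≤ s.card := Finset.card_image_le.trans (Finset.card_le_card hts)
  rcases Nat.eq_zero_or_pos (t.image f).card with h0 | h0
  · rw [h0]
    simp only [Nat.cast_zero, Real.log_zero, add_zero]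
    have : 0 ≤ Real.log (s.card : ℝ) := Real.log_natCast_nonneg _
    linarith
  · have : Real.log ((t.image f).card : ℝ) ≤ Real.log (s.card : ℝ) := by
      apply Real.log_le_log
      · exact_mod_cast h0
      · exact_mod_cast h4
    linarith

/-- one side: `g j` is a positive distance, `≥ δ`, and the distances are `δ`-separated -/
lemma one_side {ι : Type} (s t : Finset ι) (g : ι → ℝ) (δ : ℝ) (hδ : 0 < δ) (hts : t ⊆ s)
    (hsp : ∀ i ∈ t, ∀ j ∈ t, i ≠ j → δ ≤ |g i - g j|) (hg : ∀ j ∈ t, δ ≤ g j) :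
    ∑ j ∈ t, 1 / g j ≤ 1 / δ * (1 + Real.log s.card) := by
  have hg1 : ∀ j ∈ t, 1 ≤ g j / δ := fun j hj => by
    rw [le_div_iff₀ hδ, one_mul]
    exact hg j hj
  have key := sum_inv_inj s t (fun j => ⌊g j / δ⌋₊) hts (fun j hj => by
    rw [Nat.one_le_floor_iff]
    exact hg1 j hj) (fun i hi j hj hij => by
    by_contra hne
    have h1 := hsp i hi j hj hne
    have hi1 := hg1 i hi
    have hj1 := hg1 j hj
    have e1 := Nat.floor_le (show (0 : ℝ) ≤ g i / δ by linarith)
    have e2 := Nat.floor_le (show (0 : ℝ) ≤ g j / δ by linarith)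
    have e3 := Nat.lt_floor_add_one (g i / δ)
    have e4 := Nat.lt_floor_add_one (g j / δ)
    have hij' : (⌊g i / δ⌋₊ : ℝ) = ⌊g j / δ⌋₊ := by
      exact_mod_cast hij
    have h5 : |g i / δ - g j / δ| < 1 := by
      rw [abs_lt]
      constructor <;> linarith
    rw [← sub_div, abs_div, abs_of_pos hδ, div_lt_one hδ] at h5
    linarith)
  rw [Finset.sum_congr rfl (g := fun j => 1 / δ * (1 / (g j / δ))) (fun j _ => by
    field_simp), ← Finset.mul_sum]
  apply mul_le_mul_of_nonneg_left _ (by positivity)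
  refine (Finset.sum_le_sum fun j hj => ?_).trans key
  have hj1 := hg1 j hj
  have e2 := Nat.floor_le (show (0 : ℝ) ≤ g j / δ by linarith)
  have e5 : 1 ≤ ⌊g j / δ⌋₊ := (Nat.one_le_floor_iff _).2 hj1
  apply one_div_le_one_div_of_le
  · exact_mod_cast e5
  · exact e2

lemma sum_inv_dist {ι : Type} [DecidableEq ι] (s : Finset ι) (lam : ι → ℝ) (δ : ℝ) (hδ : 0 < δ)
    (hsp : ∀ i ∈ s, ∀ j ∈ s, i ≠ j → δ ≤ |lam i - lam j|) (i : ι) (hi : i ∈ s) :
    ∑ j ∈ s.erase i, 1 / |lam i - lam j| ≤ 2 / δ * (1 + Real.log s.card) := by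
  have h0 := Finset.sum_filter_add_sum_filter_not (s.erase i) (fun j => lam i < lam j)
    (fun j => 1 / |lam i - lam j|)
  rw [← h0]
  have hr := one_side s ((s.erase i).filter (fun j => lam i < lam j)) (fun j => lam j - lam i) δ hδ
    (fun j hj => Finset.mem_of_mem_erase (Finset.mem_filter.1 hj).1)
    (fun j hj k hk hne => by
      have := hsp j (Finset.mem_of_mem_erase (Finset.mem_filter.1 hj).1) k
        (Finset.mem_of_mem_erase (Finset.mem_filter.1 hk).1) hne
      rwa [sub_sub_sub_cancel_right])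
    (fun j hj => by
      have h1 := (Finset.mem_filter.1 hj).2
      have h2 := (Finset.mem_erase.1 (Finset.mem_filter.1 hj).1)
      have := hsp i hi j h2.2 (Ne.symm h2.1)
      rwa [abs_sub_comm, abs_of_pos (by linarith)] at this)
  have hl := one_side s ((s.erase i).filter (fun j => ¬ lam i < lam j)) (fun j => lam i - lam j) δ hδ
    (fun j hj => Finset.mem_of_mem_erase (Finset.mem_filter.1 hj).1)
    (fun j hj k hk hne => by
      have := hsp j (Finset.mem_of_mem_erase (Finset.mem_filter.1 hj).1) k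
        (Finset.mem_of_mem_erase (Finset.mem_filter.1 hk).1) hne
      rw [sub_sub_sub_cancel_left, abs_sub_comm]
      exact this)
    (fun j hj => by
      have h1 := (Finset.mem_filter.1 hj).2
      have h2 := (Finset.mem_erase.1 (Finset.mem_filter.1 hj).1)
      have := hsp i hi j h2.2 (Ne.symm h2.1)
      push Not at h1
      rwa [abs_of_nonneg (by linarith)] at this)
  have er : ∑ j ∈ (s.erase i).filter (fun j => lam i < lam j), 1 / |lam i - lam j| =
      ∑ j ∈ (s.erase i).filter (fun j => lam i < lam j), 1 / (lam j - lam i) := by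
    refine Finset.sum_congr rfl fun j hj => ?_
    have h1 := (Finset.mem_filter.1 hj).2
    rw [abs_sub_comm, abs_of_pos (by linarith)]
  have el : ∑ j ∈ (s.erase i).filter (fun j => ¬ lam i < lam j), 1 / |lam i - lam j| =
      ∑ j ∈ (s.erase i).filter (fun j => ¬ lam i < lam j), 1 / (lam i - lam j) := by
    refine Finset.sum_congr rfl fun j hj => ?_
    have h1 := (Finset.mem_filter.1 hj).2
    push Not at h1
    rw [abs_of_nonneg (by linarith)]
  rw [er, el]
  have e : 2 / δ * (1 + Real.log s.card) = 1 / δ * (1 + Real.log s.card) +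
    1 / δ * (1 + Real.log s.card) := by ring
  linarith

lemma int_exp_le (μ X Y : ℝ) (hμ : μ ≠ 0) :
    ‖∫ t in X..Y, cexp (-(I * μ * t))‖ ≤ 2 / |μ| := by
  have hc : (-(I * (μ : ℂ))) ≠ 0 := by
    rw [neg_ne_zero]
    exact mul_ne_zero I_ne_zero (by exact_mod_cast hμ)
  have h1 : ∀ t : ℝ, cexp (-(I * μ * t)) = cexp ((-(I * (μ : ℂ))) * t) := fun t => by
    congr 1
    ring
  simp_rw [h1]
  rw [integral_exp_mul_complex hc, norm_div]
  have h2 : ‖-(I * (μ : ℂ))‖ = |μ| := by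
    rw [norm_neg, norm_mul, norm_I, one_mul, Complex.norm_real, Real.norm_eq_abs]
  rw [h2]
  apply div_le_div_of_nonneg_right _ (abs_nonneg _)
  have h3 : ∀ y : ℝ, ‖cexp ((-(I * (μ : ℂ))) * y)‖ = 1 := fun y => by
    rw [Complex.norm_exp]
    simp
  calc ‖cexp ((-(I * (μ : ℂ))) * Y) - cexp ((-(I * (μ : ℂ))) * X)‖
      ≤ ‖cexp ((-(I * (μ : ℂ))) * Y)‖ + ‖cexp ((-(I * (μ : ℂ))) * X)‖ := norm_sub_le _ _
    _ = 2 := by rw [h3, h3]; norm_num

lemma expand {ι : Type} (s : Finset ι) (lam : ι → ℝ) (a : ι → ℂ) (t : ℝ) :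
    ((‖∑ i ∈ s, a i * cexp (-(I * lam i * t))‖ ^ 2 : ℝ) : ℂ) =
      ∑ i ∈ s, ∑ j ∈ s, a i * conj (a j) * cexp (-(I * ((lam i - lam j : ℝ) : ℂ) * t)) := by
  rw [← Complex.normSq_eq_norm_sq, ← Complex.mul_conj, map_sum, Finset.sum_mul_sum]
  refine Finset.sum_congr rfl fun i _ => Finset.sum_congr rfl fun j _ => ?_
  rw [map_mul, ← Complex.exp_conj]
  have h1 : cexp (-(I * lam i * t)) * cexp (conj (-(I * lam j * t))) =
      cexp (-(I * ((lam i - lam j : ℝ) : ℂ) * t)) := by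
    rw [← Complex.exp_add]
    congr 1
    simp only [map_neg, map_mul, Complex.conj_I, Complex.conj_ofReal]
    push_cast
    ring
  rw [← h1]
  ring

/-- mean value theorem for well spaced frequencies -/
theorem mvt0 (ι : Type) (s : Finset ι) (lam : ι → ℝ) (a : ι → ℂ) (δ X Y : ℝ) (hδ : 0 < δ) (_hXY : X ≤ Y)
    (hsp : ∀ i ∈ s, ∀ j ∈ s, i ≠ j → δ ≤ |lam i - lam j|) :
    |(∫ t in X..Y, ‖∑ i ∈ s, a i * cexp (-(I * lam i * t))‖ ^ 2) - (Y - X) * ∑ i ∈ s, ‖a i‖ ^ 2| ≤
      4 / δ * (1 + Real.log s.card) * ∑ i ∈ s, ‖a i‖ ^ 2 := by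
  classical
  have h1 : (((∫ t in X..Y, ‖∑ i ∈ s, a i * cexp (-(I * lam i * t))‖ ^ 2) -
      (Y - X) * ∑ i ∈ s, ‖a i‖ ^ 2 : ℝ) : ℂ) =
      ∑ i ∈ s, ∑ j ∈ s.erase i, a i * conj (a j) * ∫ t in X..Y, cexp (-(I * ((lam i - lam j : ℝ) : ℂ) * t)) := by
    rw [Complex.ofReal_sub, ← intervalIntegral.integral_ofReal]
    simp_rw [expand]
    rw [intervalIntegral.integral_finsetSum (fun i _ => by
      apply Continuous.intervalIntegrable
      fun_prop)]
    have e1 : ∀ i ∈ s, (∫ t in X..Y, ∑ j ∈ s, a i * conj (a j) *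
        cexp (-(I * ((lam i - lam j : ℝ) : ℂ) * t))) = ((Y - X) * ‖a i‖ ^ 2 : ℝ) +
        ∑ j ∈ s.erase i, a i * conj (a j) * ∫ t in X..Y, cexp (-(I * ((lam i - lam j : ℝ) : ℂ) * t)) := by
      intro i hi
      rw [intervalIntegral.integral_finsetSum (fun j _ => by
        apply Continuous.intervalIntegrable
        fun_prop)]
      simp_rw [intervalIntegral.integral_const_mul]
      rw [← Finset.add_sum_erase s _ hi]
      congr 1
      simp only [sub_self, Complex.ofReal_zero, mul_zero, zero_mul, neg_zero, Complex.exp_zero,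
        intervalIntegral.integral_const]
      rw [Complex.mul_conj, Complex.normSq_eq_norm_sq]
      simp only [Complex.real_smul, mul_one]
      push_cast
      ring
    rw [Finset.sum_congr rfl e1, Finset.sum_add_distrib, ← Complex.ofReal_sum, ← Finset.mul_sum,
      add_sub_cancel_left]
  rw [← Real.norm_eq_abs, ← Complex.norm_real, h1]
  have h2 : ‖∑ i ∈ s, ∑ j ∈ s.erase i, a i * conj (a j) *
      ∫ t in X..Y, cexp (-(I * ((lam i - lam j : ℝ) : ℂ) * t))‖ ≤
      ∑ i ∈ s, ∑ j ∈ s.erase i, (‖a i‖ ^ 2 * (1 / |lam i - lam j|) + ‖a j‖ ^ 2 * (1 / |lam i - lam j|)) := by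
    refine (norm_sum_le _ _).trans (Finset.sum_le_sum fun i hi => ?_)
    refine (norm_sum_le _ _).trans (Finset.sum_le_sum fun j hj => ?_)
    have hne := (Finset.mem_erase.1 hj)
    have hd := hsp i hi j hne.2 (Ne.symm hne.1)
    have hμ : lam i - lam j ≠ 0 := by
      intro h0
      rw [h0, abs_zero] at hd
      linarith
    have hb := int_exp_le (lam i - lam j) X Y hμ
    rw [norm_mul, norm_mul, RCLike.norm_conj]
    have hpos : 0 < |lam i - lam j| := abs_pos.2 hμ
    calc ‖a i‖ * ‖a j‖ * ‖∫ t in X..Y, cexp (-(I * ((lam i - lam j : ℝ) : ℂ) * t))‖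
        ≤ ‖a i‖ * ‖a j‖ * (2 / |lam i - lam j|) := by gcongr
      _ = (2 * ‖a i‖ * ‖a j‖) * (1 / |lam i - lam j|) := by ring
      _ ≤ (‖a i‖ ^ 2 + ‖a j‖ ^ 2) * (1 / |lam i - lam j|) := by
          apply mul_le_mul_of_nonneg_right _ (by positivity)
          nlinarith [sq_nonneg (‖a i‖ - ‖a j‖)]
      _ = _ := by ring
  refine h2.trans ?_
  have h3 : ∑ i ∈ s, ∑ j ∈ s.erase i, (‖a i‖ ^ 2 * (1 / |lam i - lam j|) + ‖a j‖ ^ 2 * (1 / |lam i - lam j|))
      = ∑ i ∈ s, ∑ j ∈ s.erase i, ‖a i‖ ^ 2 * (1 / |lam i - lam j|) +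
        ∑ i ∈ s, ∑ j ∈ s.erase i, ‖a i‖ ^ 2 * (1 / |lam i - lam j|) := by
    simp_rw [Finset.sum_add_distrib]
    congr 1
    rw [Finset.sum_comm' (t' := s) (s' := fun j => s.erase j) (by
      intro x y
      simp only [Finset.mem_erase, ne_eq]
      tauto)]
    refine Finset.sum_congr rfl fun i _ => Finset.sum_congr rfl fun j _ => ?_
    rw [abs_sub_comm]
  rw [h3]
  have h4 : ∑ i ∈ s, ∑ j ∈ s.erase i, ‖a i‖ ^ 2 * (1 / |lam i - lam j|) ≤
      2 / δ * (1 + Real.log s.card) * ∑ i ∈ s, ‖a i‖ ^ 2 := by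
    rw [Finset.mul_sum]
    refine Finset.sum_le_sum fun i hi => ?_
    rw [← Finset.mul_sum, mul_comm]
    exact mul_le_mul_of_nonneg_right (sum_inv_dist s lam δ hδ hsp i hi) (by positivity)
  have e : 4 / δ * (1 + Real.log s.card) * ∑ i ∈ s, ‖a i‖ ^ 2 =
    2 / δ * (1 + Real.log s.card) * ∑ i ∈ s, ‖a i‖ ^ 2 +
      2 / δ * (1 + Real.log s.card) * ∑ i ∈ s, ‖a i‖ ^ 2 := by ring
  rw [e]
  exact add_le_add h4 h4

end Pool.Agent.H641.HD
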