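import Pool.Agent.H466.HD.SA
import Pool.Agent.H641.HD.MVT0

/-!
# `S_MVT`
-/

set_option autoImplicit false

namespace Pool.Agent.H641.HD

open Complex MeasureTheory

theorem mvt : Pool.Agent.H466.HD.S_MVT := by
  intro ι s lam a δ X Y hδ hXY hsp
  refine (mvt0 ι s lam a δ X Y hδ hXY hsp).trans ?_
  have h1 : 0 ≤ Real.log (s.card : ℝ) := Real.log_natCast_nonneg _
  have h2 : 4 / δ ≤ 8 / δ := by gcongr; norm_num
  gcongr

end Pool.Agent.H641.HD
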